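import Pool.Agent.helper61.CSW.W.SpecW

/-!
# Project csw: QIN: integrability of the differential of a cycle (helper19)
-/

set_option autoImplicit false

open Complex Metric Set Filter Topology MeasureTheory
open YPPS (fd fdd pre TT CV IsCyc rho Exact)
open MPS (BB)
open Pool.Agent.helper98.ILF (juliaSet fatouSet)

noncomputable section

open CSS (SE SV JJ)

namespace YW

/-- the third power of the distance is integrable at infinity. -/
theorem QIN_cube {δ : ℝ} (hδ : 0 < δ) (b : ℂ) :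
    Integrable (fun z : ℂ => δ * (1 + 1 / δ) ^ 3 * (1 + ‖z - b‖) ^ (-(3 : ℝ))) := by
  have h1 : Integrable (fun w : ℂ => (1 + ‖w‖) ^ (-(3 : ℝ))) := by
    refine integrable_one_add_norm ?_
    rw [Complex.finrank_real_complex]
    norm_num
  exact (h1.comp_sub_right b).const_mul _

theorem QIN_bound {δ : ℝ} (hδ : 0 < δ) {b z : ℂ} (hz : δ ≤ ‖z - b‖) :
    ‖(-((δ / 2 : ℝ) : ℂ)) / ((z - b) ^ 2 * (z - b - ((δ / 2 : ℝ) : ℂ)))‖ ≤ δ * (1 + 1 / δ) ^ 3 * (1 + ‖z - b‖) ^ (-(3 : ℝ)) := by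
  obtain ⟨t, ht⟩ : ∃ t, t = ‖z - b‖ := ⟨_, rfl⟩
  have htδ : δ ≤ t := by rw [ht]; exact hz
  have ht0 : 0 < t := lt_of_lt_of_le hδ htδ
  have ha : ‖((δ / 2 : ℝ) : ℂ)‖ = δ / 2 := by
    rw [Complex.norm_real, Real.norm_eq_abs, abs_of_pos (by linarith)]
  have h1 : t / 2 ≤ ‖z - b - ((δ / 2 : ℝ) : ℂ)‖ := by
    have h2 := norm_sub_norm_le (z - b) ((δ / 2 : ℝ) : ℂ)
    rw [ha, ← ht] at h2
    linarith
  rw [norm_div, norm_neg, norm_mul, norm_pow, ha, ← ht]
  have h3 : t ^ 2 * (t / 2) ≤ t ^ 2 * ‖z - b - ((δ / 2 : ℝ) : ℂ)‖ := mul_le_mul_of_nonneg_left h1 (by positivity)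
  have h4 : δ / 2 / (t ^ 2 * ‖z - b - ((δ / 2 : ℝ) : ℂ)‖) ≤ δ / 2 / (t ^ 2 * (t / 2)) :=
    div_le_div_of_nonneg_left (by positivity) (by positivity) h3
  refine h4.trans ?_
  have h5 : (1 + t) ^ (-(3 : ℝ)) = ((1 + t) ^ 3)⁻¹ := by
    rw [Real.rpow_neg (by positivity)]
    congr 1
    exact_mod_cast Real.rpow_natCast (1 + t) 3
  rw [h5]
  have h6 : (1 + t) ≤ (1 + 1 / δ) * t := by
    have h7 : 1 ≤ 1 / δ * t := by
      rw [one_div, inv_mul_eq_div, le_div_iff₀ hδ, one_mul]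
      exact htδ
    linarith [h7]
  have h8 : (1 + t) ^ 3 ≤ ((1 + 1 / δ) * t) ^ 3 := pow_le_pow_left₀ (by positivity) h6 3
  rw [← div_eq_mul_inv, div_le_div_iff₀ (by positivity) (by positivity)]
  calc δ / 2 * (1 + t) ^ 3 ≤ δ / 2 * ((1 + 1 / δ) * t) ^ 3 := mul_le_mul_of_nonneg_left h8 (by positivity)
    _ = δ * (1 + 1 / δ) ^ 3 * (t ^ 2 * (t / 2)) := by ring

theorem QIN_int (hTRC : CSS.TRC_stmt) {f : SE} {X : NP f} {k : ℕ} [NeZero k] {b g : ZMod k → ℂ} {c₁ c₂ : ℂ} (hQ : CQ f X b g c₁ c₂)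
    {δ : ℝ} (hδ : 0 < δ) : IntegrableOn (qc X b g c₁ c₂) {z | ∀ i, δ ≤ ‖z - b i‖} := by
  obtain ⟨a, ha⟩ : ∃ a : ℂ, a = ((δ / 2 : ℝ) : ℂ) := ⟨_, rfl⟩
  have ha0 : a ≠ 0 := by
    rw [ha]
    exact_mod_cast (by linarith : (δ / 2 : ℝ) ≠ 0)
  have hms : MeasurableSet {z : ℂ | ∀ i : ZMod k, δ ≤ ‖z - b i‖} := by
    rw [setOf_forall]
    exact MeasurableSet.iInter (fun i => (isClosed_le continuous_const ((continuous_id.sub continuous_const).norm)).measurableSet)
  -- simple poles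
  obtain ⟨C, hC⟩ : ∃ C : ZMod k ⊕ (ZMod k ⊕ Bool) → ℂ, C = Sum.elim (fun _ => 1 / a) (Sum.elim (fun i => g i - 1 / a) (fun t => if t then c₂ else c₁)) := ⟨_, rfl⟩
  obtain ⟨x, hx⟩ : ∃ x : ZMod k ⊕ (ZMod k ⊕ Bool) → ℂ, x = Sum.elim (fun i => b i + a) (Sum.elim (fun i => b i) (fun t => if t then X.p₂ else X.p₁)) := ⟨_, rfl⟩
  have m0 : ∑ i, C i = 0 := by
    rw [hC, Fintype.sum_sum_type, Fintype.sum_sum_type]
    simp only [Sum.elim_inl, Sum.elim_inr, Fintype.sum_bool, if_true, Bool.false_eq_true, if_false]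
    rw [Finset.sum_sub_distrib]
    linear_combination hQ.m0
  have m1 : ∑ i, C i * x i = 0 := by
    rw [hC, hx, Fintype.sum_sum_type, Fintype.sum_sum_type]
    simp only [Sum.elim_inl, Sum.elim_inr, Fintype.sum_bool, if_true, Bool.false_eq_true, if_false]
    have e1 : ∑ i : ZMod k, 1 / a * (b i + a) + ∑ i : ZMod k, (g i - 1 / a) * b i = ∑ i : ZMod k, (1 + g i * b i) := by
      rw [← Finset.sum_add_distrib]
      refine Finset.sum_congr rfl (fun i _ => ?_)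
      field_simp
      ring
    linear_combination hQ.m1 + e1
  have hI1 := hTRC _ Finset.univ C x m0 m1
  -- the remaining cubes
  have hI2 : IntegrableOn (fun z : ℂ => ∑ i : ZMod k, (-a) / ((z - b i) ^ 2 * (z - b i - a))) {z | ∀ i, δ ≤ ‖z - b i‖} := by
    refine integrable_finsetSum _ (fun i _ => ?_)
    refine Integrable.mono' ((QIN_cube hδ (b i)).restrict) ?_ ?_
    · exact (by fun_prop : Measurable (fun z : ℂ => (-a) / ((z - b i) ^ 2 * (z - b i - a)))).aestronglyMeasurable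
    · refine (ae_restrict_iff' hms).2 (Eventually.of_forall (fun z hz => ?_))
      rw [ha]
      exact QIN_bound hδ (hz i)
  refine (hI1.integrableOn.add hI2).congr_fun ?_ hms
  intro z hz
  show (∑ i, C i / (z - x i)) + (∑ i : ZMod k, (-a) / ((z - b i) ^ 2 * (z - b i - a))) = qc X b g c₁ c₂ z
  rw [hC, hx, Fintype.sum_sum_type, Fintype.sum_sum_type]
  simp only [Sum.elim_inl, Sum.elim_inr, Fintype.sum_bool, if_true, Bool.false_eq_true, if_false]
  unfold qc rr MPS.BB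
  have e1 : ∑ i : ZMod k, 1 / a / (z - (b i + a)) + ∑ i : ZMod k, (g i - 1 / a) / (z - b i) + ∑ i : ZMod k, (-a) / ((z - b i) ^ 2 * (z - b i - a)) =
      ∑ i : ZMod k, (1 / (z - b i) ^ 2 + g i / (z - b i)) := by
    rw [← Finset.sum_add_distrib, ← Finset.sum_add_distrib]
    refine Finset.sum_congr rfl (fun i _ => ?_)
    have hzi : δ ≤ ‖z - b i‖ := hz i
    have h1 : z - b i ≠ 0 := by
      intro h0
      rw [h0, norm_zero] at hzi
      linarith
    have h2 : z - b i - a ≠ 0 := by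
      intro h0
      rw [sub_eq_zero] at h0
      rw [h0, ha, Complex.norm_real, Real.norm_eq_abs, abs_of_pos (by linarith)] at hzi
      linarith
    obtain ⟨w, hw⟩ : ∃ w, w = z - b i := ⟨_, rfl⟩
    have h3 : z - (b i + a) = w - a := by rw [hw]; ring
    rw [h3, ← hw]
    rw [← hw] at h1 h2
    field_simp
    ring
  linear_combination e1

theorem QIN_diff {f : SE} {X : NP f} {k : ℕ} [NeZero k] (b g : ZMod k → ℂ) (c₁ c₂ : ℂ) :
    DifferentiableOn ℂ (qc X b g c₁ c₂) (Set.range b ∪ {X.p₁, X.p₂})ᶜ := by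
  intro z hz
  have h1 : ∀ i, z - b i ≠ 0 := fun i h0 => hz (Or.inl ⟨i, (sub_eq_zero.1 h0).symm⟩)
  have h2 : z - X.p₁ ≠ 0 := fun h0 => hz (Or.inr (Or.inl (sub_eq_zero.1 h0)))
  have h3 : z - X.p₂ ≠ 0 := fun h0 => hz (Or.inr (Or.inr (sub_eq_zero.1 h0)))
  refine DifferentiableAt.differentiableWithinAt ?_
  have h4 : ∀ p : ℂ, DifferentiableAt ℂ (fun u : ℂ => u - p) z := fun p => differentiableAt_id.sub_const p
  have h5 : DifferentiableAt ℂ (fun u : ℂ => ∑ i, (1 / (u - b i) ^ 2 + g i / (u - b i))) z := by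
    refine DifferentiableAt.fun_sum (fun i _ => ?_)
    exact ((differentiableAt_const _).div ((h4 (b i)).pow 2) (pow_ne_zero 2 (h1 i))).add ((differentiableAt_const _).div (h4 (b i)) (h1 i))
  have h6 : DifferentiableAt ℂ (fun u : ℂ => c₁ / (u - X.p₁) + c₂ / (u - X.p₂)) z :=
    ((differentiableAt_const _).div (h4 _) h2).add ((differentiableAt_const _).div (h4 _) h3)
  exact h5.add h6

/-- QIN: integrability of `q`. -/
theorem QIN (hTRC : CSS.TRC_stmt) : QIN_stmt := by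
  intro f X k _ b g c₁ c₂ hQ
  have hint : ∀ δ > (0 : ℝ), IntegrableOn (qc X b g c₁ c₂) {z | ∀ i, δ ≤ ‖z - b i‖} := fun δ hδ => QIN_int hTRC hQ hδ
  have hfin : (Set.range b ∪ {X.p₁, X.p₂}).Finite := (Set.finite_range b).union (by simp)
  refine ⟨hint, ⟨?_, hfin, ?_, QIN_diff b g c₁ c₂, ⟨⟨_, hfin, QIN_diff b g c₁ c₂⟩, ?_⟩⟩, ?_⟩
  · have := f.two_le_natDegree
    omega
  · rintro z (⟨i, rfl⟩ | hz)
    · rw [hQ.cyc.step i]
      exact Or.inl ⟨i + 1, rfl⟩
    · rcases hz with rfl | hz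
      · rw [X.fix1]
        exact Or.inr (Or.inl rfl)
      · rw [mem_singleton_iff] at hz
        rw [hz, X.fix2]
        exact Or.inr (Or.inr rfl)
  · obtain ⟨R, hR⟩ : ∃ R : ℝ, ∀ i, ‖b i‖ ≤ R := by
      refine ⟨∑ i, ‖b i‖, fun i => ?_⟩
      exact Finset.single_le_sum (f := fun i => ‖b i‖) (fun j _ => norm_nonneg _) (Finset.mem_univ i)
    refine ⟨R + 1, (hint 1 one_pos).mono_set ?_⟩
    intro z hz i
    rw [mem_compl_iff, mem_closedBall_zero_iff, not_le] at hz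
    have h1 := norm_sub_norm_le z (b i)
    linarith [hR i]
  · intro κ hκ ε hε
    have hKc : IsClosed (KE b κ ε) := by
      have : KE b κ ε = ⋂ i, {z : ℂ | ε * κ i ≤ ‖z - b i‖} := by
        unfold KE
        exact setOf_forall _
      rw [this]
      exact isClosed_iInter (fun i => isClosed_le continuous_const ((continuous_id.sub continuous_const).norm))
    have hfc : Continuous (fun z : ℂ => f.eval z) := f.dif.continuous
    have hFc : IsClosed (FKE f b κ ε) := hKc.preimage hfc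
    refine ⟨hKc.measurableSet, hFc.measurableSet, ?_, ?_⟩
    · obtain ⟨i₀, -, hi₀⟩ := Finset.exists_min_image (Finset.univ : Finset (ZMod k)) κ ⟨0, Finset.mem_univ _⟩
      refine (hint (ε * κ i₀) (mul_pos hε (hκ i₀))).mono_set (fun z hz i => ?_)
      exact (mul_le_mul_of_nonneg_left (hi₀ i (Finset.mem_univ i)) hε.le).trans (hz i)
    · have h1 : ∀ i, ∃ d > (0 : ℝ), ∀ z ∈ FKE f b κ ε, d ≤ ‖z - b i‖ := by
        intro i
        have h2 : b i ∉ FKE f b κ ε := by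
          intro hc
          have h3 := hc (i + 1)
          rw [hQ.cyc.step i, sub_self, norm_zero] at h3
          exact absurd h3 (not_le.2 (mul_pos hε (hκ _)))
        obtain ⟨d, hd, hdb⟩ := Metric.isOpen_iff.1 hFc.isOpen_compl (b i) h2
        refine ⟨d, hd, fun z hz => ?_⟩
        by_contra hcon
        exact hdb (mem_ball_iff_norm.2 (not_le.1 hcon)) hz
      choose d hd hdz using h1
      obtain ⟨i₀, -, hi₀⟩ := Finset.exists_min_image (Finset.univ : Finset (ZMod k)) d ⟨0, Finset.mem_univ _⟩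
      refine (hint (d i₀) (hd i₀)).mono_set (fun z hz i => ?_)
      exact (hi₀ i (Finset.mem_univ i)).trans (hdz i z hz)

end YW
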